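import Pool.Agent.ATB.Stmts

set_option autoImplicit false

/-!
# Squad ATB, row CLO: closure of the spaces under `dd`
-/

namespace Pool.Agent.ATB.H97

open scoped TensorProduct
open Module

section aux

variable {K : Type} [Field K] {n : ℕ}

theorem sp_le_cons (a : Fin n → K) (B : Multiset (Fin n → K)) : sp B ≤ sp (a ::ₘ B) :=
  sp_le.2 (fun _ hz => mem_sp (Multiset.mem_cons_of_mem hz))

/-- the shift of a form by one member -/
theorem step_mem (lpw : LPWStmt) {B : Multiset (Fin n → K)} {i : ℤ} {a : Fin n → K}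
    {ω : ExteriorAlgebra K (Fin n → K)} (hω : ω ∈ Lpow (sp B) i) :
    ExteriorAlgebra.ι K a * ω ∈ Lpow (sp (a ::ₘ B)) (i + 1) := by
  obtain ⟨h1, h2, _, _⟩ := lpw K n
  exact h2 _ _ _ _ (mem_sp (Multiset.mem_cons_self a B)) (h1 _ _ _ (sp_le_cons a B) hω)

theorem gen_mem_OmH {k : ℤ} {Z B D : Multiset (Fin n → K)} {H : Submodule K (Fin n → K)} {i : ℤ}
    {ω : ExteriorAlgebra K (Fin n → K)} (hω : ω ∈ Lpow H i) (hZ : B + D = Z) (hH : sp B = H)
    (hc : (B.card : ℤ) = k + i) : prodm D ⊗ₜ[K] ω ∈ OmH k Z H i :=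
  Submodule.subset_span ⟨B, D, ω, hω, hZ, hH, hc, rfl⟩

theorem gen_mem_Om {k : ℤ} {Z B D : Multiset (Fin n → K)} {i : ℤ}
    {ω : ExteriorAlgebra K (Fin n → K)} (hω : ω ∈ Lpow (sp B) i) (hZ : B + D = Z)
    (hc : (B.card : ℤ) = k + i) : prodm D ⊗ₜ[K] ω ∈ Om k Z i :=
  Submodule.subset_span ⟨B, D, ω, hω, hZ, hc, rfl⟩

theorem OmH_le {k : ℤ} {Z : Multiset (Fin n → K)} {H : Submodule K (Fin n → K)} {i : ℤ}
    {T : Submodule K (AA K n)}
    (h : ∀ (B D : Multiset (Fin n → K)) (ω : ExteriorAlgebra K (Fin n → K)), ω ∈ Lpow H i →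
      B + D = Z → sp B = H → (B.card : ℤ) = k + i → prodm D ⊗ₜ[K] ω ∈ T) : OmH k Z H i ≤ T := by
  refine Submodule.span_le.2 ?_
  rintro x ⟨B, D, ω, hω, hZ, hH, hc, rfl⟩
  exact h B D ω hω hZ hH hc

theorem Om_le {k : ℤ} {Z : Multiset (Fin n → K)} {i : ℤ} {T : Submodule K (AA K n)}
    (h : ∀ (B D : Multiset (Fin n → K)) (ω : ExteriorAlgebra K (Fin n → K)), ω ∈ Lpow (sp B) i →
      B + D = Z → (B.card : ℤ) = k + i → prodm D ⊗ₜ[K] ω ∈ T) : Om k Z i ≤ T := by
  refine Submodule.span_le.2 ?_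
  rintro x ⟨B, D, ω, hω, hZ, hc, rfl⟩
  exact h B D ω hω hZ hc

theorem OmH_le_Om (k : ℤ) (Z : Multiset (Fin n → K)) (H : Submodule K (Fin n → K)) (i : ℤ) :
    OmH k Z H i ≤ Om k Z i := by
  refine OmH_le ?_
  rintro B D ω hω hZ rfl hc
  exact gen_mem_Om hω hZ hc

/-- differential of a generator -/
theorem dd_gen (dpr : DPRStmt) (lpw : LPWStmt) {k : ℤ} {Z B D : Multiset (Fin n → K)} {i : ℤ}
    {ω : ExteriorAlgebra K (Fin n → K)} (hω : ω ∈ Lpow (sp B) i) (hZ : B + D = Z)
    (hc : (B.card : ℤ) = k + i) (T : Submodule K (AA K n))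
    (hT : ∀ a ∈ D, OmH k Z (sp (a ::ₘ B)) (i + 1) ≤ T) : dd (prodm D ⊗ₜ[K] ω) ∈ T := by
  refine (dpr K n).2 D ω T ?_
  rintro a E' rfl
  refine hT a (Multiset.mem_cons_self a E') (gen_mem_OmH (step_mem lpw hω) ?_ rfl ?_)
  · rw [← hZ, Multiset.cons_add, Multiset.add_cons]
  · rw [Multiset.card_cons]
    push_cast
    omega

theorem dd_OmH_self (dpr : DPRStmt) (lpw : LPWStmt) {k : ℤ} {Y : Multiset (Fin n → K)}
    {H : Submodule K (Fin n → K)} (hY : ∀ z ∈ Y, z ∈ H) {i : ℤ} {x : AA K n}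
    (hx : x ∈ OmH k Y H i) : dd x ∈ OmH k Y H (i + 1) := by
  have h : OmH k Y H i ≤ (OmH k Y H (i + 1)).comap dd := by
    refine OmH_le ?_
    rintro B D ω hω hZ rfl hc
    rw [Submodule.mem_comap]
    refine dd_gen dpr lpw hω hZ hc _ ?_
    intro a ha
    have h1 : sp (a ::ₘ B) = sp B := by
      refine le_antisymm (sp_le.2 ?_) (sp_le_cons a B)
      intro z hz
      rcases Multiset.mem_cons.1 hz with rfl | hz
      · exact hY _ (hZ ▸ Multiset.mem_add.2 (Or.inr ha))
      · exact mem_sp hz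
    rw [h1]
  exact h hx

theorem OmH_eq_map (k : ℤ) (Z : Multiset (Fin n → K)) (H : Submodule K (Fin n → K)) (i : ℤ) :
    OmH k Z H i = (Cc k Z H i).map (pm (prodm (out Z H))) := by
  apply le_antisymm
  · refine OmH_le ?_
    rintro B D ω hω hZ hH hc
    have hBH : ∀ z ∈ B, z ∈ H := fun z hz => hH ▸ mem_sp hz
    have h1 : ins Z H = B + ins D H := by rw [← hZ, ins_add, ins_eq_self hBH]
    have h2 : out Z H = out D H := by
      have h5 : out B H = 0 := by
        have h6 := ins_add_out B H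
        rw [ins_eq_self hBH] at h6
        exact add_eq_left.1 h6
      rw [← hZ, out_add, h5, zero_add]
    refine ⟨prodm (ins D H) ⊗ₜ[K] ω, gen_mem_OmH hω h1.symm hH hc, ?_⟩
    rw [pm_tmul, h2, ← prodm_add, add_comm, ins_add_out]
  · rw [Submodule.map_le_iff_le_comap]
    refine OmH_le ?_
    rintro B D ω hω hZ hH hc
    rw [Submodule.mem_comap, pm_tmul, ← prodm_add]
    refine gen_mem_OmH hω ?_ hH hc
    rw [add_comm (out Z H), ← add_assoc, hZ, ins_add_out]

theorem finrank_sup_span {H : Submodule K (Fin n → K)} {a : Fin n → K} (ha : a ∉ H) :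
    finrank K (H ⊔ Submodule.span K {a} : Submodule K (Fin n → K)) = finrank K H + 1 := by
  have ha0 : a ≠ 0 := by
    rintro rfl
    exact ha H.zero_mem
  have h1 := Submodule.finrank_sup_add_finrank_inf_eq H (Submodule.span K {a})
  have h2 : H ⊓ Submodule.span K {a} = ⊥ := by
    rw [← disjoint_iff]
    exact (Submodule.disjoint_span_singleton' ha0).2 ha
  rw [h2, finrank_bot, finrank_span_singleton ha0] at h1
  omega

end aux

theorem clo (dpr : DPRStmt) (lpw : LPWStmt) : CLOStmt := by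
  intro K _ n k Z
  have h3 : ∀ (H : Submodule K (Fin n → K)) (i : ℤ),
      OmH k Z H i = (Cc k Z H i).map (pm (prodm (out Z H))) := OmH_eq_map k Z
  refine ⟨?_, ?_, h3, ?_, OmH_le_Om k Z, ?_, ?_, ?_, ?_, ?_⟩
  · intro i x hx
    have h : Om k Z i ≤ (Om k Z (i + 1)).comap dd := by
      refine Om_le ?_
      rintro B D ω hω hZ hc
      rw [Submodule.mem_comap]
      exact dd_gen dpr lpw hω hZ hc _ (fun a _ => OmH_le_Om k Z _ _)
    exact h hx
  · intro H i x hx
    exact dd_OmH_self dpr lpw (fun z hz => (mem_ins.1 hz).2) hx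
  · intro H i x hx
    set T := ⨆ (H' : Submodule K (Fin n → K)) (_ : H ≤ H' ∧ finrank K H' = finrank K H + 1),
        OmH k Z H' (i + 1) with hT
    have h : Cc k Z H i ≤ T.comap (dd ∘ₗ pm (prodm (out Z H)) - pm (prodm (out Z H)) ∘ₗ dd) := by
      refine OmH_le ?_
      rintro B D ω hω hZ hH hc
      show dd (pm (prodm (out Z H)) (prodm D ⊗ₜ[K] ω)) -
        pm (prodm (out Z H)) (dd (prodm D ⊗ₜ[K] ω)) ∈ T
      refine (dpr K n).1 (out Z H) (prodm D ⊗ₜ[K] ω) T ?_
      intro a E' hE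
      have ha : a ∉ H := (mem_out.1 (hE ▸ Multiset.mem_cons_self a E' : a ∈ out Z H)).2
      rw [wl_tmul, pm_tmul, ← prodm_add]
      have hle : OmH k Z (H ⊔ Submodule.span K {a}) (i + 1) ≤ T :=
        le_iSup₂_of_le (H ⊔ Submodule.span K {a}) ⟨le_sup_left, finrank_sup_span ha⟩ le_rfl
      refine hle ?_
      have hsp : sp (a ::ₘ B) = H ⊔ Submodule.span K {a} := by rw [sp_cons, hH]
      rw [← hsp]
      refine gen_mem_OmH (B := a ::ₘ B) (step_mem lpw (by rw [hH]; exact hω)) ?_ rfl ?_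
      · have h5 := ins_add_out Z H
        rw [hE, ← hZ] at h5
        rw [← h5, Multiset.cons_add, Multiset.add_cons, add_comm E' D, add_assoc]
      · rw [Multiset.card_cons]
        push_cast
        omega
    exact h hx
  · intro i
    apply le_antisymm
    · exact iSup₂_le (fun H _ => OmH_le_Om k Z H i)
    · refine Om_le ?_
      rintro B D ω hω hZ hc
      exact (le_iSup₂_of_le (f := fun (H : Submodule K (Fin n → K)) (_ : 0 ≤ finrank K H) =>
        OmH k Z H i) (sp B) (Nat.zero_le _) le_rfl) (gen_mem_OmH hω hZ rfl hc)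
  · intro r i x hx
    have h : Omge k Z r i ≤ (Omge k Z r (i + 1)).comap dd := by
      refine iSup₂_le (fun H hH => ?_)
      refine OmH_le ?_
      rintro B D ω hω hZ rfl hc
      rw [Submodule.mem_comap]
      refine dd_gen dpr lpw hω hZ hc _ (fun a _ => ?_)
      exact le_iSup₂_of_le (f := fun (H : Submodule K (Fin n → K)) (_ : r ≤ finrank K H) =>
        OmH k Z H (i + 1)) (sp (a ::ₘ B)) (hH.trans (Submodule.finrank_mono (sp_le_cons a B)))
        le_rfl
    exact h hx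
  · intro H c i x hc hx
    have h : OmH (k + 1) Z H i ≤ (OmH k Z H (i + 1)).comap (wl c) := by
      refine OmH_le ?_
      rintro B D ω hω hZ hH hcard
      rw [Submodule.mem_comap, wl_tmul]
      exact gen_mem_OmH ((lpw K n).2.1 _ _ _ _ hc hω) hZ hH (by omega)
    exact h hx
  · intro H W i hZW hHW
    rw [eq_bot_iff]
    refine OmH_le ?_
    rintro B D ω hω hZ rfl hc
    exact absurd (sp_le.2 (fun z hz => hZW z (hZ ▸ Multiset.mem_add.2 (Or.inl hz)))) hHW
  · intro r i
    apply le_antisymm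
    · refine iSup₂_le (fun H hH => ?_)
      rcases hH.lt_or_eq with hlt | heq
      · exact le_sup_of_le_left (le_iSup₂_of_le (f := fun (H : Submodule K (Fin n → K))
          (_ : r + 1 ≤ finrank K H) => OmH k Z H i) H hlt le_rfl)
      · refine le_sup_of_le_right ?_
        rw [h3 H i]
        exact le_iSup_of_le (f := fun H : {H : Submodule K (Fin n → K) // finrank K H = r} =>
          (Cc k Z H.1 i).map (pm (prodm (out Z H.1)))) ⟨H, heq.symm⟩ le_rfl
    · refine sup_le ?_ ?_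
      · refine iSup₂_le (fun H hH => ?_)
        exact le_iSup₂_of_le (f := fun (H : Submodule K (Fin n → K)) (_ : r ≤ finrank K H) =>
          OmH k Z H i) H (Nat.le_of_succ_le hH) le_rfl
      · refine iSup_le (fun H => ?_)
        rw [← h3 H.1 i]
        exact le_iSup₂_of_le (f := fun (H : Submodule K (Fin n → K)) (_ : r ≤ finrank K H) =>
          OmH k Z H i) H.1 (le_of_eq H.2.symm) le_rfl

end Pool.Agent.ATB.H97
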